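import Pool.Agent.K3h75.ND.StmN

/-!
# Smooth forms modulo all prime numbers
-/

set_option autoImplicit false
set_option linter.all false

namespace Pool.Agent.K3h99.ND

open MvPolynomial Pool.Agent.K3h75.ND

/-- the form with the coefficients of `F` is `F` -/
theorem form_coeff {N d : ℕ} (F : MvPolynomial (Fin N) ℤ) (hF : F.IsHomogeneous d) (k : Type)
    [Field k] : form (fun m : Mon N d => ((coeff m.1 F : ℤ) : k)) = map (Int.castRingHom k) F := by
  classical
  ext n
  rw [coeff_map, form, coeff_sum]
  by_cases hn : n.degree = d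
  · refine (Finset.sum_eq_single (⟨n, hn⟩ : Mon N d) ?_ ?_).trans ?_
    · intro m _ hm
      refine (coeff_monomial _ _ _).trans (if_neg ?_)
      intro h
      exact hm (Subtype.ext h)
    · intro h
      exact absurd (@Finset.mem_univ (Mon N d) _ ⟨n, hn⟩) h
    · exact (coeff_monomial _ _ _).trans (if_pos rfl)
  · refine (Finset.sum_eq_zero ?_).trans ?_
    · intro m _
      refine (coeff_monomial _ _ _).trans (if_neg ?_)
      intro h
      apply hn
      rw [← h]
      exact m.2
    · rw [hF.coeff_eq_zero hn, map_zero]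

/-- the sum of the powers -/
noncomputable def PF (N d : ℕ) (R : Type) [CommRing R] : MvPolynomial (Fin (N + 1)) R :=
  ∑ i, X i ^ d

/-- the other form -/
noncomputable def QF (N d : ℕ) (R : Type) [CommRing R] : MvPolynomial (Fin (N + 1)) R :=
  X 0 ^ d + ∑ i : Fin N, X i.castSucc * X i.succ ^ (d - 1)

theorem PF_hom (N d : ℕ) : (PF N d ℤ).IsHomogeneous d := by
  refine IsHomogeneous.sum _ _ _ fun i _ => ?_
  have := (isHomogeneous_X ℤ i).pow d
  rwa [one_mul] at this

theorem QF_hom (N d : ℕ) (hd : 2 ≤ d) : (QF N d ℤ).IsHomogeneous d := by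
  refine IsHomogeneous.add ?_ (IsHomogeneous.sum _ _ _ fun i _ => ?_)
  · have := (isHomogeneous_X ℤ (0 : Fin (N + 1))).pow d
    rwa [one_mul] at this
  · have := (isHomogeneous_X ℤ i.castSucc).mul ((isHomogeneous_X ℤ i.succ).pow (d - 1))
    have e : 1 + 1 * (d - 1) = d := by omega
    rwa [e] at this

theorem PF_map (N d : ℕ) (k : Type) [Field k] : map (Int.castRingHom k) (PF N d ℤ) = PF N d k := by
  simp [PF]

theorem QF_map (N d : ℕ) (k : Type) [Field k] : map (Int.castRingHom k) (QF N d ℤ) = QF N d k := by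
  simp [QF]

theorem PF_d {N d : ℕ} {k : Type} [Field k] (x : Fin (N + 1) → k) (j : Fin (N + 1)) :
    eval x (pderiv j (PF N d k)) = d * x j ^ (d - 1) := by
  classical
  rw [PF, map_sum, map_sum, Finset.sum_eq_single j]
  · simp [pderiv_pow]
  · intro i _ hi
    simp [pderiv_pow, pderiv_X_of_ne hi]
  · intro h
    exact absurd (Finset.mem_univ _) h

theorem QF_d {N d : ℕ} {k : Type} [Field k] (x : Fin (N + 1) → k) (j : Fin (N + 1)) :
    eval x (pderiv j (QF N d k)) = (if j = 0 then d * x 0 ^ (d - 1) else 0) +
      ∑ i : Fin N, ((if i.castSucc = j then x i.succ ^ (d - 1) else 0) +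
        (if i.succ = j then ((d - 1 : ℕ) : k) * x i.castSucc * x i.succ ^ (d - 2) else 0)) := by
  classical
  rw [QF, map_add, map_add, map_sum, map_sum]
  congr 1
  · by_cases h : j = 0
    · subst h
      simp [pderiv_pow]
    · rw [if_neg h]
      simp [pderiv_pow, pderiv_X_of_ne (Ne.symm h)]
  · refine Finset.sum_congr rfl fun i _ => ?_
    rw [pderiv_mul, map_add, map_mul, map_mul, map_pow, eval_X, eval_X, pderiv_pow, map_mul, map_mul,
      map_pow, eval_X]
    congr 1
    · by_cases h : i.castSucc = j
      · rw [if_pos h, h, pderiv_X_self, map_one, one_mul]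
      · rw [if_neg h, pderiv_X_of_ne h, map_zero, zero_mul]
    · by_cases h : i.succ = j
      · rw [if_pos h, h, pderiv_X_self, map_one, mul_one]
        have e : d - 1 - 1 = d - 2 := by omega
        rw [e]
        simp
        ring
      · rw [if_neg h, pderiv_X_of_ne h, map_zero, mul_zero, mul_zero]

theorem QF_e {N d : ℕ} {k : Type} [Field k] (x : Fin (N + 1) → k) :
    eval x (QF N d k) = x 0 ^ d + ∑ i : Fin N, x i.castSucc * x i.succ ^ (d - 1) := by
  simp [QF]

/-- the equation for `j = i.castSucc` -/
theorem eq_j {N d : ℕ} {k : Type} [Field k] (hd : (d : k) = 0) (x : Fin (N + 1) → k)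
    (h : ∀ j, eval x (pderiv j (QF N d k)) = 0) (i₀ : Fin N) :
    x i₀.succ ^ (d - 1) + ∑ i : Fin N, (if i.succ = i₀.castSucc then
      ((d - 1 : ℕ) : k) * x i.castSucc * x i.succ ^ (d - 2) else 0) = 0 := by
  classical
  have h1 := h i₀.castSucc
  rw [QF_d, hd, zero_mul, ite_self, zero_add, Finset.sum_add_distrib, Finset.sum_eq_single i₀] at h1
  · rwa [if_pos rfl] at h1
  · intro i _ hi
    rw [if_neg]
    intro e
    exact hi (Fin.castSucc_injective _ e)
  · intro h
    exact absurd (Finset.mem_univ _) h

/-- degree more than two -/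
theorem big {N d : ℕ} (hd2 : 2 < d) {k : Type} [Field k] (hd : (d : k) = 0) (x : Fin (N + 1) → k)
    (h0 : eval x (QF N d k) = 0) (h : ∀ j, eval x (pderiv j (QF N d k)) = 0) : x = 0 := by
  have key : ∀ n (hn : n < N), x (⟨n, hn⟩ : Fin N).succ = 0 := by
    intro n
    induction n using Nat.strong_induction_on with
    | _ n ih =>
      intro hn
      have h1 := eq_j hd x h ⟨n, hn⟩
      rw [Finset.sum_eq_zero, add_zero] at h1
      · exact pow_eq_zero_iff (by omega) |>.1 h1
      · intro i _
        by_cases e : i.succ = (⟨n, hn⟩ : Fin N).castSucc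
        · rw [if_pos e]
          have e1 : i.1 + 1 = n := by
            have := congrArg Fin.val e
            simpa using this
          have e2 := ih i.1 (by omega) i.2
          have e3 : (⟨i.1, i.2⟩ : Fin N) = i := rfl
          rw [e3] at e2
          rw [e2, zero_pow (by omega), mul_zero]
        · rw [if_neg e]
  have h1 : x 0 = 0 := by
    rw [QF_e, Finset.sum_eq_zero, add_zero] at h0
    · exact pow_eq_zero_iff (by omega) |>.1 h0
    · intro i _
      rw [show i = ⟨i.1, i.2⟩ from rfl, key i.1 i.2, zero_pow (by omega), mul_zero]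
  funext j
  refine Fin.cases h1 (fun i => ?_) j
  exact key i.1 i.2

/-- degree two -/
theorem two {N : ℕ} (hN : 1 ≤ N) {k : Type} [Field k] (hd : ((2 : ℕ) : k) = 0) (x : Fin (N + 1) → k)
    (h0 : eval x (QF N 2 k) = 0) (h : ∀ j, eval x (pderiv j (QF N 2 k)) = 0) : x = 0 := by
  -- the equations
  have e0 : ∀ (h1 : 1 < N + 1), x ⟨1, h1⟩ = 0 := by
    intro h1
    have h2 := eq_j hd x h ⟨0, by omega⟩
    rw [Finset.sum_eq_zero, add_zero] at h2
    · simpa using h2
    · intro i _
      rw [if_neg]
      intro e
      have := congrArg Fin.val e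
      simp at this
  have e1 : ∀ m (hm : m + 2 < N + 1), x ⟨m + 2, hm⟩ + x ⟨m, by omega⟩ = 0 := by
    intro m hm
    have h2 := eq_j hd x h ⟨m + 1, by omega⟩
    rw [Finset.sum_eq_single (⟨m, by omega⟩ : Fin N)] at h2
    · rw [if_pos (by ext; simp)] at h2
      simpa using h2
    · intro i _ hi
      rw [if_neg]
      intro e
      apply hi
      have := congrArg Fin.val e
      ext
      simpa using this
    · intro h
      exact absurd (Finset.mem_univ _) h
  have odd : ∀ m, ∀ (hm : 2 * m + 1 < N + 1), x ⟨2 * m + 1, hm⟩ = 0 := by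
    intro m
    induction m with
    | zero => intro hm; exact e0 hm
    | succ m ih =>
      intro hm
      have h1 := e1 (2 * m + 1) (by omega)
      rw [ih (by omega), add_zero] at h1
      exact h1
  have h1 : x 0 = 0 := by
    rw [QF_e, Finset.sum_eq_zero, add_zero] at h0
    · exact pow_eq_zero_iff (by omega) |>.1 h0
    · intro i _
      obtain ⟨i, hi⟩ := i
      rcases Nat.even_or_odd' i with ⟨m, hm | hm⟩
      · have h3 : x (⟨i, hi⟩ : Fin N).succ = 0 := by
          have := odd m (by omega)
          rw [← this]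
          congr 1
          ext
          simp [hm]
        rw [h3]
        simp
      · have h3 : x (⟨i, hi⟩ : Fin N).castSucc = 0 := by
          have := odd m (by omega)
          rw [← this]
          congr 1
          ext
          simp [hm]
        rw [h3, zero_mul]
  have even : ∀ m, ∀ (hm : 2 * m < N + 1), x ⟨2 * m, hm⟩ = 0 := by
    intro m
    induction m with
    | zero => intro hm; exact h1
    | succ m ih =>
      intro hm
      have h1 := e1 (2 * m) (by omega)
      rw [ih (by omega), add_zero] at h1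
      exact h1
  funext j
  obtain ⟨j, hj⟩ := j
  rcases Nat.even_or_odd' j with ⟨m, hm | hm⟩
  · subst hm; exact even m hj
  · subst hm; exact odd m hj

theorem t_SMP : S_SMP := by
  intro N d hN hd p hp
  by_cases hpd : p ∣ d
  · refine ⟨fun m => coeff m.1 (QF N d ℤ), ?_⟩
    intro k _ _ x h0 h
    rw [form_coeff _ (QF_hom N d hd), QF_map] at h0 h
    have hdk : (d : k) = 0 := (CharP.cast_eq_zero_iff k p d).2 hpd
    rcases Nat.lt_or_ge 2 d with h2 | h2
    · exact big h2 hdk x h0 h
    · have : d = 2 := by omega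
      subst this
      exact two hN hdk x h0 h
  · refine ⟨fun m => coeff m.1 (PF N d ℤ), ?_⟩
    intro k _ _ x h0 h
    rw [form_coeff _ (PF_hom N d), PF_map] at h
    have hdk : (d : k) ≠ 0 := fun e => hpd ((CharP.cast_eq_zero_iff k p d).1 e)
    funext j
    have h1 := h j
    rw [PF_d] at h1
    rcases mul_eq_zero.1 h1 with h2 | h2
    · exact absurd h2 hdk
    · exact pow_eq_zero_iff (by omega) |>.1 h2

end Pool.Agent.K3h99.ND
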